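import Pool.Agent.Lib.H77M.Main

/-!
# Project H77I (MP_b45e87_pr): the rate of convergence, and independent points on any probability space
-/

set_option autoImplicit false

open MeasureTheory Set ProbabilityTheory Filter Topology
open scoped ENNReal

namespace Pool.Agent.Lib.H77I

open Pool.Agent.Lib.H77M

/-- The argument of `cauchy_of_62` with the rate. -/
theorem rate_of_62 (b : ℕ → ℝ)
    (h : ∃ C c : ℝ, 0 < C ∧ 0 < c ∧ c < 1 ∧ ∀ m n : ℕ, C ≤ (m : ℝ) → m ^ 3 ≤ n →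
      Real.log n ≤ (m : ℝ) ^ c → |b n - b m| ≤ C * (m : ℝ) ^ (-c)) :
    ∃ ξ C c : ℝ, 0 < c ∧ ∀ n : ℕ, 1 ≤ n → |b n - ξ| ≤ C * (n : ℝ) ^ (-c) := by
  obtain ⟨ξ, hξ⟩ := cauchy_of_62 b h
  obtain ⟨C, c, hC, hc, _, h⟩ := h
  have e1 : ∀ᶠ x : ℝ in atTop, 6 * Real.log x ≤ x ^ c := by
    have h1 := (isLittleO_log_rpow_atTop hc).def (show (0 : ℝ) < 1 / 6 by norm_num)
    filter_upwards [h1, eventually_ge_atTop (1 : ℝ)] with x hx hx1
    rw [Real.norm_of_nonneg (Real.log_nonneg hx1),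
      Real.norm_of_nonneg (Real.rpow_nonneg (by linarith) _)] at hx
    linarith
  have e2 : ∀ᶠ x : ℝ in atTop, 2 ≤ (x / 4) ^ c := by
    have h1 : Tendsto (fun x : ℝ => (x / 4) ^ c) atTop atTop :=
      (tendsto_rpow_atTop hc).comp (tendsto_id.atTop_div_const (by norm_num))
    exact h1.eventually_ge_atTop 2
  obtain ⟨X, hX⟩ := eventually_atTop.1 (e1.and e2)
  obtain ⟨N, hN⟩ := exists_nat_ge (max X (max C 8))
  have hNX : X ≤ N := (le_max_left _ _).trans hN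
  have hNC : C ≤ N := (le_max_left _ _).trans ((le_max_right _ _).trans hN)
  have hN8' : (8 : ℝ) ≤ N := (le_max_right _ _).trans ((le_max_right _ _).trans hN)
  have hN8 : 8 ≤ N := by exact_mod_cast hN8'
  have hN0 : (0 : ℝ) < N := by linarith
  have hbig : ∀ m : ℕ, N ≤ m → |b m - ξ| ≤ 6 * C * (m : ℝ) ^ (-c) := by
    intro m hm
    have h1 : ∀ n : ℕ, m ≤ n → |b n - b m| ≤ 6 * C * (m : ℝ) ^ (-c) := by
      intro n hn
      have h2 := C8_ind hC hc h hN8 hNC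
        (fun m hm => (hX m (hNX.trans (by exact_mod_cast hm))).1)
        (fun m hm => (hX m (hNX.trans (by exact_mod_cast hm))).2) hm n hn
      have h3 : 0 ≤ 4 * C * (n : ℝ) ^ (-c) := by positivity
      linarith
    have h4 : Tendsto (fun n : ℕ => |b n - b m|) atTop (𝓝 |ξ - b m|) :=
      (hξ.sub_const (b m)).abs
    have h5 := le_of_tendsto h4 (eventually_atTop.2 ⟨m, fun n hn => h1 n hn⟩)
    rwa [abs_sub_comm] at h5
  set B : ℝ := ∑ m ∈ Finset.range N, |b m - ξ| with hB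
  have hB0 : 0 ≤ B := Finset.sum_nonneg fun _ _ => abs_nonneg _
  refine ⟨ξ, 6 * C + B * (N : ℝ) ^ c, c, hc, fun n hn => ?_⟩
  have hn0 : (0 : ℝ) < n := by exact_mod_cast hn
  have hp : 0 < (n : ℝ) ^ (-c) := Real.rpow_pos_of_pos hn0 _
  by_cases hnN : N ≤ n
  · refine (hbig n hnN).trans ?_
    have : 0 ≤ B * (N : ℝ) ^ c * (n : ℝ) ^ (-c) := by positivity
    linarith
  · push Not at hnN
    have h1 : |b n - ξ| ≤ B :=
      Finset.single_le_sum (f := fun m => |b m - ξ|) (fun _ _ => abs_nonneg _)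
        (Finset.mem_range.2 hnN)
    have h2 : (1 : ℝ) ≤ (N : ℝ) ^ c * (n : ℝ) ^ (-c) := by
      rw [Real.rpow_neg hn0.le, ← div_eq_mul_inv, one_le_div (Real.rpow_pos_of_pos hn0 _)]
      exact Real.rpow_le_rpow hn0.le (by exact_mod_cast hnN.le) hc.le
    have h3 : B * 1 ≤ B * ((N : ℝ) ^ c * (n : ℝ) ^ (-c)) := mul_le_mul_of_nonneg_left h2 hB0
    have h4 : 0 ≤ 6 * C * (n : ℝ) ^ (-c) := by positivity
    linarith

theorem F_rate : ∃ ξ C c : ℝ, 0 < c ∧ ∀ n : ℕ, 1 ≤ n →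
    |(F n - Real.log n / (4 * Real.pi)) - ξ| ≤ C * (n : ℝ) ^ (-c) :=
  rate_of_62 _ (step62 F F_nonneg F_log F_le (fun _ hn => F_mono hn) recur)

/-- The cost functional of the frozen statement for `n` points. -/
noncomputable def Phi (n : ℕ) (X : Fin n → ℝ × ℝ) : ℝ≥0∞ :=
  ⨅ (γ : Measure ((ℝ × ℝ) × (ℝ × ℝ)))
    (_ : γ.map Prod.fst = (n : ℝ≥0∞)⁻¹ • ∑ i, Measure.dirac (X i) ∧ γ.map Prod.snd = U),
    ∫⁻ p, ENNReal.ofReal ((p.1.1 - p.2.1) ^ 2 + (p.1.2 - p.2.2) ^ 2) ∂γ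

theorem Phi_ae {n : ℕ} (hn : 1 ≤ n) : ∀ᵐ X ∂(UU (Fin n)),
    Phi n X = ENNReal.ofReal (W 1 X (fun _ => (n : ℝ)) / n) := by
  filter_upwards [ae_inj n] with X hX
  apply coupling hn X hX.1
  intro i
  have := hX.2 i
  exact ⟨⟨this.1.1, this.1.2.le⟩, ⟨this.2.1, this.2.2.le⟩⟩

theorem Phi_aemeas {n : ℕ} (hn : 1 ≤ n) : AEMeasurable (Phi n) (UU (Fin n)) := by
  have h1 : AEMeasurable (fun X : Fin n → ℝ × ℝ => ENNReal.ofReal (W 1 X (fun _ => (n : ℝ)) / n))
      (UU (Fin n)) :=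
    ((W_integrable (ι := Fin n) (Nat.cast_nonneg n)).div_const _).aestronglyMeasurable.aemeasurable.ennreal_ofReal
  refine h1.congr ?_
  filter_upwards [Phi_ae hn] with X hX
  exact hX.symm

theorem Phi_lint {n : ℕ} (hn : 1 ≤ n) :
    ∫⁻ X, Phi n X ∂(UU (Fin n)) = ENNReal.ofReal (F n / n) := by
  have hn0 : (0 : ℝ) ≤ n := Nat.cast_nonneg n
  rw [lintegral_congr_ae (Phi_ae hn), ← ofReal_integral_eq_lintegral_ofReal
    ((W_integrable (ι := Fin n) hn0).div_const _)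
    (Filter.Eventually.of_forall fun X => div_nonneg (W_nonneg X fun _ _ => hn0) hn0),
    integral_div]
  rfl

theorem iid_law {Ω : Type*} [MeasurableSpace Ω] (P : Measure Ω) [IsProbabilityMeasure P]
    (X : ℕ → Ω → ℝ × ℝ) (hX : ∀ i, Measurable (X i)) (hlaw : ∀ i, P.map (X i) = U)
    (hind : iIndepFun X P) (n : ℕ) : P.map (fun ω (i : Fin n) => X i ω) = UU (Fin n) := by
  have h1 : iIndepFun (fun i : Fin n => X i) P :=
    hind.precomp (g := fun i : Fin n => (i : ℕ)) Fin.val_injective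
  rw [(iIndepFun_iff_map_fun_eq_pi_map fun i : Fin n => (hX i).aemeasurable).1 h1]
  unfold UU
  congr 1
  funext i
  exact hlaw i

theorem Phi_iid_aemeas {Ω : Type*} [MeasurableSpace Ω] (P : Measure Ω) [IsProbabilityMeasure P]
    (X : ℕ → Ω → ℝ × ℝ) (hX : ∀ i, Measurable (X i)) (hlaw : ∀ i, P.map (X i) = U)
    (hind : iIndepFun X P) {n : ℕ} (hn : 1 ≤ n) :
    AEMeasurable (fun ω => Phi n (fun i : Fin n => X i ω)) P := by
  have hm : Measurable (fun ω (i : Fin n) => X i ω) := measurable_pi_lambda _ fun i => hX i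
  have h1 : AEMeasurable (Phi n) (P.map (fun ω (i : Fin n) => X i ω)) := by
    rw [iid_law P X hX hlaw hind n]
    exact Phi_aemeas hn
  exact h1.comp_measurable hm

/-- Independent points with the uniform distribution on any probability space. -/
theorem Phi_iid {Ω : Type*} [MeasurableSpace Ω] (P : Measure Ω) [IsProbabilityMeasure P]
    (X : ℕ → Ω → ℝ × ℝ) (hX : ∀ i, Measurable (X i)) (hlaw : ∀ i, P.map (X i) = U)
    (hind : iIndepFun X P) {n : ℕ} (hn : 1 ≤ n) :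
    ∫⁻ ω, Phi n (fun i : Fin n => X i ω) ∂P = ENNReal.ofReal (F n / n) := by
  have h2 := iid_law P X hX hlaw hind n
  have hm : Measurable (fun ω (i : Fin n) => X i ω) := measurable_pi_lambda _ fun i => hX i
  rw [← Phi_lint hn, ← h2, lintegral_map' (by rw [h2]; exact Phi_aemeas hn) hm.aemeasurable]

end Pool.Agent.Lib.H77I
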